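import Pool.Agent.W5h93.FG.Defs
import Pool.Agent.W5h68.SP.Defs

/-!
# Étale motivic cohomology in all negative weights: definitions
-/

set_option autoImplicit false

open CategoryTheory AlgebraicGeometry MvPolynomial Pool.Agent.Y116.UV Pool.Agent.Q282.UZ
  Pool.Agent.W5h68.SP

namespace Pool.Agent.W5h38.TW

/-- The properties of the groups `H a i X = H^i(X_et, ℤ^c(- 1 - a))`, `a = 0, 1, 2, …`, of the
arithmetic schemes `X` which are used.

* `isLocal`: for every weight: invariance under isomorphisms; the long exact localization sequences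
  `⋯ → H^i(Z) → H^i(X) → H^i(U) → H^{i+1}(Z) → ⋯` for a closed subscheme `Z` of `X` and its complement
  `U`; for an affine scheme `X` of finite type `H^i(X)` is a direct factor of `H^{i-1}(X × 𝔾_m)`;
* `line`: homotopy invariance, `H^i((X × 𝔸^1)_et, ℤ^c(n)) ≅ H^{i+2}(X_et, ℤ^c(n - 1))` for affine
  schemes `X` of finite type;
* `low`: the groups are finitely generated if the dimension of `X` is at most `1` (number rings,
  curves over finite fields, points). -/
structure IsEtaleMotivicAll (H : ℕ → ℤ → Sch ℤ → ModuleCat.{0} ℤ) : Prop where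
  isLocal : ∀ a, IsLocal True (H a) (Equiv.addRight (1 : ℤ)) (Equiv.addRight (-1 : ℤ))
  line : ∀ (a : ℕ) (B : Type) [CommRing B] [Algebra ℤ B] [Algebra.FiniteType ℤ B] (i : ℤ),
    Nonempty (H a i (aff ℤ (Polynomial B)) ≅ H (a + 1) (i + 2) (aff ℤ B))
  low : ∀ X : Sch ℤ, FT True X → topologicalKrullDim X.left ≤ 1 → ∀ a i,
    Module.Finite ℤ (H a i X)

/-- All groups `H^i(X_et, ℤ^c(n))`, `n < 0`, `i ∈ ℤ`, are finitely generated. -/
def AllFG (H : ℕ → ℤ → Sch ℤ → ModuleCat.{0} ℤ) (X : Sch ℤ) : Prop :=
  ∀ a i, Module.Finite ℤ (H a i X)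

/-- All groups are finitely generated for the arithmetic schemes of dimension at most `d`. -/
def FGDim (H : ℕ → ℤ → Sch ℤ → ModuleCat.{0} ℤ) (d : ℕ) : Prop :=
  ∀ X : Sch ℤ, FT True X → topologicalKrullDim X.left ≤ d → AllFG H X

/-- The groups are finitely generated for the following affine schemes over the finite fields `k`:
the inverse images of the cones of dimension at most `d + 1` (given by forms `g_i`) under the monomial
maps between affine spaces over `k`, also with any finite number of additional equations `b_j = 0`,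
where `b_j` has at most two terms; and the schemes given by `c` linearly independent polynomials `f_i`
with at most `c + d + 1` monomials altogether, also with such additional equations. -/
def Few (H : ℕ → ℤ → Sch ℤ → ModuleCat.{0} ℤ) (d : ℕ) : Prop :=
  ∀ (k : Type) [Field k] [Finite k],
    (∀ (m N r t : ℕ) (g : Fin r → MvPolynomial (Fin m) k) (α : Fin m → Fin N →₀ ℕ)
      (b : Fin t → MvPolynomial (Fin N) k), (∀ i, ∃ e, (g i).IsHomogeneous e) →
      ringKrullDim (MvPolynomial (Fin m) k ⧸ Ideal.span (Set.range g)) ≤ d + 1 →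
      (∀ j, (b j).support.card ≤ 2) →
      AllFG H (aff ℤ (MvPolynomial (Fin N) k ⧸ Ideal.span
        ((Set.range fun i => atMonomials α (g i)) ∪ Set.range b)))) ∧
    ∀ (N c t : ℕ) (f : Fin c → MvPolynomial (Fin N) k) (S : Finset (Fin N →₀ ℕ))
      (b : Fin t → MvPolynomial (Fin N) k), LinearIndependent k f → (∀ i, (f i).support ⊆ S) →
      S.card ≤ c + d + 1 → (∀ j, (b j).support.card ≤ 2) →
      AllFG H (aff ℤ (MvPolynomial (Fin N) k ⧸ Ideal.span (Set.range f ∪ Set.range b)))

end Pool.Agent.W5h38.TW
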