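import Pool.Agent.W5h38.TW.Wk
import Pool.Agent.W5h38.TW.EDefs
import Pool.Agent.W5h68.SP.Main

/-!
# Étale motivic cohomology in all negative weights and torus schemes
-/

set_option autoImplicit false

open CategoryTheory AlgebraicGeometry MvPolynomial Pool.Agent.Y116.UV Pool.Agent.Q282.UZ
  Pool.Agent.Q193.LT Pool.Agent.Z125.UN Pool.Agent.W5h38.TV Pool.Agent.W5h68.SP

namespace Pool.Agent.W5h38.TW

section dim

variable {R : Type} [CommRing R] {sep : Prop} {P : Sch R → Prop} (hP : Wk sep P)

include hP

lemma of_affine_dim {n : ℕ} (h : ∀ (A : Type) [CommRing A] [Algebra R A]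
    [Algebra.FiniteType R A], ringKrullDim A ≤ n → P (aff R A)) (X : Sch R) (hX : FT sep X)
    (hn : topologicalKrullDim X.left ≤ n) : P X := by
  refine of_affine' (P := fun X => topologicalKrullDim X.left ≤ n → P X) (sep := sep) ?_ ?_ ?_ X
    hX hn
  · intro X Y hX e hPX hY
    refine hP.iso hX e (hPX ?_)
    obtain ⟨e⟩ := e
    let f := (Over.forget _).mapIso e
    exact (Topology.IsInducing.topologicalKrullDim_le
      (Scheme.homeoOfIso f).isInducing).trans hY
  · intro Z X U i j hX ht hZ hU hn
    refine hP.total i j hX ht (hZ ?_) (hU ?_)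
    · have h1 := (have := ht.closed; i.left.isClosedEmbedding.isInducing)
      exact h1.topologicalKrullDim_le.trans hn
    · have h1 := (have := ht.opened; j.left.isOpenEmbedding.isInducing)
      exact h1.topologicalKrullDim_le.trans hn
  · intro A _ _ _ hA
    rw [show topologicalKrullDim (aff R A).left = ringKrullDim A from
      PrimeSpectrum.topologicalKrullDim_eq_ringKrullDim A] at hA
    exact h A hA

end dim

theorem wk_dim_iff {R : Type} [CommRing R] {P : Sch R → Prop} (hP : Wk True P) (n : ℕ) :
    (∀ X : Sch R, FT True X → topologicalKrullDim X.left ≤ n → P X) ↔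
      ∀ X : Sch R, Built n X → P X := by
  constructor
  · intro h X hX
    refine built hP (fun A _ _ _ hA => h _ (ft_aff True) ?_) hX
    rw [show topologicalKrullDim (aff R A).left = ringKrullDim A from
      PrimeSpectrum.topologicalKrullDim_eq_ringKrullDim A]
    exact hA
  · intro h X hX hn
    exact of_affine_dim hP (fun A _ _ _ hA => h _ (built_of_dim hA)) X hX hn

lemma conv {H : ℕ → ℤ → Sch ℤ → ModuleCat.{0} ℤ} {A : Type} [CommRing A] (i1 i2 : Algebra ℤ A)
    (h : AllFG H (@aff ℤ A _ _ i1)) : AllFG H (@aff ℤ A _ _ i2) := by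
  rwa [Subsingleton.elim i2 i1]

section etale

variable {H : ℕ → ℤ → Sch ℤ → ModuleCat.{0} ℤ} (hH : IsEtaleMotivicAll H)

include hH

theorem wk_etale : Wk True (AllFG H) where
  iso hX e h a i := by
    obtain ⟨e'⟩ := (hH.isLocal a).iso hX e i
    exact serre_finite.iso e' (h a i)
  total i j hX ht hZ hU a := by
    obtain ⟨m, h⟩ := (hH.isLocal a).les i j hX ht
    exact LesMaps.mid serre_finite h (hZ a) (hU a)
  opened i j hX ht hZ hX' a := by
    obtain ⟨m, h⟩ := (hH.isLocal a).les i j hX ht
    exact LesMaps.right serre_finite h (hZ a) (hX' a)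
  closed i j hX ht hX' hU a := by
    obtain ⟨m, h⟩ := (hH.isLocal a).les i j hX ht
    exact LesMaps.left serre_finite h (hX' a) (hU a)
  poly A _ _ _ h a i := by
    obtain ⟨e⟩ := hH.line a A i
    exact serre_finite.iso e.symm (h (a + 1) (i + 2))

/-- the algebras over a finite field -/
theorem cl_etale (k : Type) [Field k] [Finite k] :
    Cl k fun A _ _ => AllFG H (aff ℤ A) := by
  have hP := wk_etale hH
  have hk : Algebra.FiniteType ℤ k := by
    have : Module.Finite ℤ k := inferInstance
    infer_instance
  have hft : ∀ (A : Type) [CommRing A] [Algebra k A] [Algebra.FiniteType k A],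
      Algebra.FiniteType ℤ A := fun A _ _ _ =>
    Algebra.FiniteType.trans (S := k) hk inferInstance
  have hz : ∀ {A : Type} [CommRing A], Subsingleton A → AllFG H (aff ℤ A) := by
    intro A _ hA
    refine hH.low _ ?_ ?_
    · have : Algebra.FiniteType ℤ A := Algebra.FiniteType.of_surjective (Algebra.ofId ℤ _)
        fun b => ⟨0, Subsingleton.elim _ _⟩
      exact ft_aff True
    · rw [show topologicalKrullDim (aff ℤ A).left = ringKrullDim A from
        PrimeSpectrum.topologicalKrullDim_eq_ringKrullDim A, ringKrullDim_eq_bot_of_subsingleton]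
      exact bot_le
  exact
    { iso := fun {A B} _ _ _ _ _ e h => by
        have := hft A
        exact iso_alg hP (e.toRingEquiv.toIntAlgEquiv) h
      total := fun {A} _ _ _ f h1 h2 => by
        have := hft A
        exact hP.total _ _ (ft_aff True) (triple_away (R := ℤ) f) (conv _ _ h1) (conv _ _ h2)
      opened := fun {A} _ _ _ f h1 h2 => by
        have := hft A
        exact conv _ _ (hP.opened _ _ (ft_aff True) (triple_away (R := ℤ) f) (conv _ _ h1) h2)
      closed := fun {A} _ _ _ f h1 h2 => by
        have := hft A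
        exact conv _ _ (hP.closed _ _ (ft_aff True) (triple_away (R := ℤ) f) h1 (conv _ _ h2))
      poly := fun {A} _ _ _ h => by
        have := hft A
        exact hP.poly A h
      zero := fun {A} _ _ hA => hz hA
      base := by
        refine hH.low _ (ft_aff True) ?_
        rw [show topologicalKrullDim (aff ℤ k).left = ringKrullDim k from
          PrimeSpectrum.topologicalKrullDim_eq_ringKrullDim k, ringKrullDim_eq_zero_of_field]
        exact zero_le_one }

theorem few (d : ℕ) (h : FGDim H d) : Few H d := by
  intro k _ _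
  have hk : Algebra.FiniteType ℤ k := by
    have : Module.Finite ℤ k := inferInstance
    infer_instance
  have h1 : ∀ (A : Type) [CommRing A] [Algebra k A] [Algebra.FiniteType k A],
      ringKrullDim A ≤ d → AllFG H (aff ℤ A) := by
    intro A _ _ _ hA
    have : Algebra.FiniteType ℤ A := Algebra.FiniteType.trans (S := k) hk inferInstance
    refine h _ (ft_aff True) ?_
    rw [show topologicalKrullDim (aff ℤ A).left = ringKrullDim A from
      PrimeSpectrum.topologicalKrullDim_eq_ringKrullDim A]
    exact hA
  exact ⟨fun m N r t g α b hg hd hb => q_monomial (cl_etale hH k) h1 g hg hd α b hb,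
    fun N c t f S b hf hS hc hb => q_sparse (cl_etale hH k) h1 f hf S hS hc b hb⟩

end etale

end Pool.Agent.W5h38.TW
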